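import Mathlib
import Pool.Agent.H659Houg.Defs
import Pool.Agent.H659Houg.Core2

set_option autoImplicit false

namespace Pool.Agent.Results.MP_66ff79_co.HougardyFalse

open SimpleGraph Pool.Agent.H659Houg

/-- Hougardy's conjecture is false: for no family `F` of line graphs of bipartite graphs is it true
that a finite graph is strict quasi-parity if and only if it contains no odd hole, no antihole and
no member of `F`. -/
theorem result :
    ¬ ∃ F : Set (Σ n : ℕ, SimpleGraph (Fin n)),
      (∀ L ∈ F, IsLineGraphOfBipartite L.2) ∧
      ∀ (V : Type) [Finite V] (G : SimpleGraph V),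
        StrictQuasiParity G ↔
          (¬ HasOddHole G ∧ ¬ HasAntihole G ∧ ∀ L ∈ F, ¬ Nonempty (L.2 ↪g G)) :=
  hougardy_false

end Pool.Agent.Results.MP_66ff79_co.HougardyFalse
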